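import Pool.Agent.H113R3.WS.Main

/-!
# A weakly sequentially hypercyclic operator that is not hypercyclic

Real and complex scalars. The space is the closure, in the bounded functions on `ℕ × ℕ`, of the
functions `f(i, t)` with finitely many nonzero levels `i`, each level being eventually constant in
`t`, and the operator is a weighted backward shift in the variable `i` with weights depending on
both variables.
-/

open Filter Topology

namespace Pool.Agent.Results.MP_faea85_an.WeakSeqNotHypercyclic

section defs

variable (𝕜 : Type) [RCLike 𝕜] {B : Type} [NormedAddCommGroup B] [NormedSpace 𝕜 B]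

/-- `T` is hypercyclic: some orbit `{x, T x, T² x, …}` is dense for the norm topology. -/
def IsHypercyclic (T : B →L[𝕜] B) : Prop :=
  ∃ x : B, Dense (Set.range fun n : ℕ => (T ^ n) x)

/-- The sequence `u` converges to `y` in the weak topology: `φ (u k) → φ y` for every continuous
linear functional `φ`. -/
def WeaklyTendsto (u : ℕ → B) (y : B) : Prop :=
  ∀ φ : B →L[𝕜] 𝕜, Tendsto (fun k => φ (u k)) atTop (𝓝 (φ y))

/-- `M` is weakly sequentially closed: it contains the limit of every weakly convergent sequence
of its elements. -/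
def IsWeaklySeqClosed (M : Set B) : Prop :=
  ∀ (u : ℕ → B) (y : B), (∀ k, u k ∈ M) → WeaklyTendsto 𝕜 u y → y ∈ M

/-- The weak sequential closure of `A`: the smallest weakly sequentially closed set
containing `A`. -/
def weakSeqClosure (A : Set B) : Set B :=
  ⋂₀ {M : Set B | IsWeaklySeqClosed 𝕜 M ∧ A ⊆ M}

/-- `T` is weakly sequentially hypercyclic: the weak sequential closure of some orbit is the whole
space. -/
def IsWeaklySequentiallyHypercyclic (T : B →L[𝕜] B) : Prop :=
  ∃ x : B, weakSeqClosure 𝕜 (Set.range fun n : ℕ => (T ^ n) x) = Set.univ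

end defs

/-- For real and for complex scalars there are a separable Banach space and a bounded operator on
it which is weakly sequentially hypercyclic but not hypercyclic. -/
theorem result : ∀ (𝕜 : Type) [RCLike 𝕜], ∃ (B : Type) (_ : NormedAddCommGroup B)
    (_ : NormedSpace 𝕜 B) (_ : CompleteSpace B) (_ : TopologicalSpace.SeparableSpace B)
    (T : B →L[𝕜] B), IsWeaklySequentiallyHypercyclic 𝕜 T ∧ ¬ IsHypercyclic 𝕜 T := by
  intro 𝕜 _
  refine ⟨Pool.Agent.H113R3.WS.X 𝕜, inferInstance, inferInstance, inferInstance,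
    (Pool.Agent.H113R3.WS.isSeparable_X 𝕜).separableSpace, Pool.Agent.H113R3.WS.TX 𝕜, ?_,
    fun ⟨x, hx⟩ => Pool.Agent.H113R3.WS.not_hypercyclic 𝕜 x hx⟩
  obtain ⟨x, hx⟩ := Pool.Agent.H113R3.WS.weakly_one_seq 𝕜
  refine ⟨x, Set.eq_univ_of_forall fun y => ?_⟩
  obtain ⟨n, -, hn⟩ := hx y
  rintro M ⟨hM, hA⟩
  exact hM (fun k => (Pool.Agent.H113R3.WS.TX 𝕜 ^ n k) x) y (fun k => hA ⟨n k, rfl⟩) hn

end Pool.Agent.Results.MP_faea85_an.WeakSeqNotHypercyclic
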